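import Mathlib
import Pool.Agent.K3h28.NF.Fin

/-!
# Logarithms of all conjugates of almost all algebraic integers

Let `K_1, ..., K_k` be number fields. For almost all `k`-tuples `(α_1, ..., α_k)` of integers of
these fields, ordered by the largest absolute value of a conjugate, the number `2 π i` and the
logarithms of ALL conjugates of `α_1, ..., α_k`, for arbitrary determinations of the logarithms,
satisfy no nonzero polynomial relation of total degree `≤ D` with algebraic coefficients. The same
holds over arbitrary fixed complex numbers `t_1, ..., t_l` such that `2 π i, t_1, ..., t_l` satisfy no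
such relation, with a bound which is uniform in `t`.

For example let all `K_i` be the field of Gaussian numbers: for almost all `k`-tuples of pairs
`(a_i, b_i)` of integers the `2 k + 1` numbers `π`, `log (a_i ^ 2 + b_i ^ 2)`, `arctan (b_i / a_i)`
satisfy no nonzero polynomial relation of degree `≤ D` with algebraic coefficients.

The proof.
* `K3h28.NF.VDet`, `VCube`: a version for vectors of the theorem on cubes `H297R2.cube_free`; the
  points where the evaluation determinant is evaluated are chosen one by one, and the condition on the
  directions `w_k` of the cube is that no nonzero complex vector is orthogonal to more than an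
  `h`-dimensional space of combinations of the vectors `w_k` with algebraic coefficients.
* `VHyp`: by the theorem of Baker and the hyperplane case of the linear subgroup theorem of Waldschmidt
  and Roy (`W254.HP`) this holds with `h = m (m - 1)` if all coordinates of the vectors
  `w_k ∈ ℂ ^ m` are logarithms of algebraic numbers which are linearly independent over `ℚ`.
* `Prm`, `Bal`, `Data`: by the analytic class number formula the sum of the inverse norms of the primes
  of degree one in some ideal class diverges, and the generators of their products with a fixed ideal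
  can be balanced (all conjugates are large).
* `Box`, `TK`, `Cubes`, `Cubes2`: a second moment argument gives multiplicative cubes
  `a π_1^{(')} ... π_r^{(')}` in dense sets of integers of a number field.
* `Ind`: the conjugates of the elements `π_k' / π_k` are multiplicatively independent.
* `Dens`, `Tup`, `Fin`: conclusion.
-/

set_option autoImplicit false

open NumberField

namespace Pool.Agent.Results.MP_60829e_nt.ConjugatesOfAlmostAllIntegers

/-- The complex numbers `x i` satisfy no nonzero polynomial relation of total degree at most `D`
with algebraic coefficients. -/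
def IndepUpTo (D : ℕ) {σ : Type} (x : σ → ℂ) : Prop :=
  ∀ P : MvPolynomial σ (algebraicClosure ℚ ℂ), P.totalDegree ≤ D →
    MvPolynomial.aeval x P = 0 → P = 0

/-- The tuples `(α_1, ..., α_k)` of integers `α_i` of the fields `K_i` such that all conjugates
`σ (α_i)` have absolute value at most `X`. -/
def Region {k : ℕ} (K : Fin k → Type) [∀ i, Field (K i)] (X : ℝ) : Set (∀ i, 𝓞 (K i)) :=
  {α | ∀ i, ∀ σ : K i →+* ℂ, ‖σ (α i : K i)‖ ≤ X}

/-- For some choice of logarithms `l (i, σ)` of the conjugates `σ (α_i)`, the numbers `2 π i`,
`t_1, ..., t_l` and all `l (i, σ)`, `1 ≤ i ≤ k`, `σ : K_i → ℂ`, satisfy a nonzero polynomial relation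
of total degree at most `D` with algebraic coefficients. -/
def Related (D : ℕ) {k l : ℕ} (K : Fin k → Type) [∀ i, Field (K i)] (t : Fin l → ℂ)
    (α : ∀ i, 𝓞 (K i)) : Prop :=
  ∃ lam : (Σ i, (K i →+* ℂ)) → ℂ,
    (∀ p : Σ i, (K i →+* ℂ), Complex.exp (lam p) = p.2 (α p.1 : K p.1)) ∧
    ¬ IndepUpTo D (Sum.elim (Fin.cons (2 * Real.pi * Complex.I) t : Fin (l + 1) → ℂ) lam)

/-- **Main result.** -/
theorem result (k l D : ℕ) (K : Fin k → Type) [∀ i, Field (K i)] [∀ i, NumberField (K i)]
    (ε : ℝ) (hε : 0 < ε) :
    ∃ X₀ : ℝ, ∀ X ≥ X₀, (Region K X).Finite ∧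
      ∀ t : Fin l → ℂ,
        IndepUpTo D (Fin.cons (2 * Real.pi * Complex.I) t : Fin (l + 1) → ℂ) →
        ({α | α ∈ Region K X ∧ Related D K t α}.ncard : ℝ) ≤ ε * (Region K X).ncard := by
  obtain ⟨X₀, hX₀⟩ := Pool.Agent.K3h28.NF.main k K (Fin (l + 1)) D ε hε
  refine ⟨X₀, fun X hX => ⟨(hX₀ X hX).1, fun t ht => ?_⟩⟩
  exact (hX₀ X hX).2 (Fin.cons (2 * Real.pi * Complex.I) t) ⟨0, rfl⟩ ht

end Pool.Agent.Results.MP_60829e_nt.ConjugatesOfAlmostAllIntegers
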