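import Mathlib
import Pool.Agent.K3h28.SP.Grow

/-!
# Logarithms of almost all integers: relations whose degree tends to infinity

For almost all `k`-tuples of positive integers up to `x` the numbers `log n_1, ..., log n_k` satisfy
no nonzero polynomial relation with algebraic coefficients of total degree at most `D`, where now
`D` may tend to infinity with `x`: it is enough that `16 (D + 1) ^ (2 (k + l) + 1) ≤ log log x`. The
same holds over arbitrary complex numbers `t_1, ..., t_l` which satisfy no such relation themselves,
uniformly in `t`, and the number of exceptional tuples is at most `C x ^ k / log log x`, where `C`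
depends on `k` and `l` only.

So (`k = 1`, `l = 0` is Baker's theorem; `k = 1`, `l = 1`) for almost all integers `n` up to `x` the
number `log n` is not a root of a polynomial of degree at most `c (log log x) ^ (1/5)` in `π` (or any
other transcendental number) and one variable; for almost all pairs `(m, n)` the logarithms `log m`,
`log n` satisfy no relation of degree at most `c (log log x) ^ (1/5)`.

Known here is the case of a fixed degree (`AlmostAllTuples`; with a better bound for the number of
exceptions in `MP_9cd479_nt.AlmostAllLatticeTuples`), without any bound for the dependence on the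
degree.

The proof.
* The theorem on cubes is made explicit (`K3h28.SP.CubeX`): a set of exceptional integers contains no
  multiplicative cube `a s_1 ... s_r`, `s_i ∈ {p_i, q_i}`, with distinct primes `p_i, q_i`, for
  `r = D B (B + 1)`, where `B` is the number of monomials of degree at most `D` (Baker's theorem and
  evaluation determinants).
* A set of integers up to `x`, each of which has at least `r` prime factors `≥ y`, without such
  cubes has at most `2 (1 + log_2 x) ^ r x (2 / y) ^ (2 ^ (1 - r))` elements (`K3h28.SP.Count`, a box
  theorem of Erdős in dyadic boxes). This holds uniformly in `r`. For `y = exp √(log x)` and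
  `r ≤ (log log x) / 8` it is at most `x / log log x`.
* By Turán's theorem and Mertens' theorem the number of integers up to `x` with fewer than
  `(log log x) / 8` prime factors `≥ y` is at most `32 x / log log x` for large `x`.
-/

set_option autoImplicit false

namespace Pool.Agent.Results.MP_60829e_nt.GrowingDegree

/-- The complex numbers `x i` satisfy no nonzero polynomial relation of total degree at most `D`
with algebraic coefficients. -/
def IndepUpTo (D : ℕ) {σ : Type} (x : σ → ℂ) : Prop :=
  ∀ P : MvPolynomial σ (algebraicClosure ℚ ℂ), P.totalDegree ≤ D →
    MvPolynomial.aeval x P = 0 → P = 0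

open Classical in
/-- **Main result.** -/
theorem result (k l : ℕ) : ∃ C : ℝ, 0 < C ∧ ∀ x D : ℕ, 16 ≤ x →
    16 * ((D : ℝ) + 1) ^ (2 * (k + l) + 1) ≤ Real.log (Real.log x) →
    ∀ t : Fin l → ℂ, IndepUpTo D t →
      (((Fintype.piFinset fun _ : Fin k => Finset.Icc 1 x).filter fun n =>
        ¬ IndepUpTo D (Sum.elim t fun i => (Real.log (n i) : ℂ))).card : ℝ) ≤
      C * (x : ℝ) ^ k / Real.log (Real.log x) := by
  obtain ⟨C, hC0, hC⟩ := Pool.Agent.K3h28.SP.grow k l
  refine ⟨C, hC0, fun x D hx hD t ht => ?_⟩
  have h1 : Finset.Icc 1 x = Finset.Ioc 0 x := by
    ext n
    rw [Finset.mem_Icc, Finset.mem_Ioc]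
    omega
  rw [h1]
  exact hC x D hx hD t ht

end Pool.Agent.Results.MP_60829e_nt.GrowingDegree
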