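import Mathlib
import Pool.Agent.K3h28.OG.Sys

/-!
# Relations of bounded degree in arbitrary linear families of tuples of logarithms

Let `ℚ̄` be the field of the algebraic numbers and let `Λ` be an `m × N` matrix whose entries are
linear forms, with coefficients in `ℚ̄`, in `1` and logarithms of algebraic numbers. Consider the
`N`-parameter family of tuples `ζ + Λ b`, `b ∈ ℚ̄ ^ N`, where `ζ ∈ ℂ ^ m` is arbitrary, and numbers
`t_1, ..., t_l` which satisfy no nonzero polynomial relation of degree `≤ D` over `ℚ̄`. Suppose that for
every nonzero `a ∈ ℚ̄ ^ m` the `N` entries of the combination `a Λ` of the rows of `Λ` span a space of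
dimension at least `ρ` over `ℚ̄`. We prove that the exceptional parameters `b`, for which `t` and the
`m` coordinates of `ζ + Λ b` satisfy a nonzero polynomial relation of total degree `≤ D` over `ℚ̄`, lie
in an algebraic subset of `ℚ̄ ^ N` of dimension at most

`d = (N - ρ) + m (m - 1) + binom(D + l + m, l + m) - 1`.

(A set lies in an algebraic subset of dimension at most `d` if and only if any `d + 1` linear forms
satisfy a nontrivial polynomial relation on it.)

The extreme case is `ρ = N`. The condition says that `Λ` is `1`-generic: no combination
`∑ a_i b_k Λ_ik` with nonzero `a` and `b` vanishes. Then `d = m (m - 1) + binom(D + l + m, l + m) - 1`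
does not depend on the number `N` of parameters.

* By Baker's theorem this holds if all `m N` entries of `Λ` are logarithms of algebraic numbers which
  are linearly independent over `ℚ`. For example let `K` be a number field with the embeddings
  `σ_1, ..., σ_m` and let `α_1, ..., α_N` be elements all of whose conjugates are multiplicatively
  independent (for example generators of prime ideals of degree one with different norms). For almost
  all integer vectors `b` the logarithms of all `m` conjugates of `α_1 ^ b_1 ... α_N ^ b_N` satisfy no
  relation of degree `≤ D`, and the exceptions lie on an algebraic set of dimension at most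
  `m (m - 1) + binom(D + m, m) - 1` for every `N`.
* There are `1`-generic matrices with few different entries: the Hankel matrices
  `Λ_ik = log p_(i+k)`, `p_1, p_2, ...` different primes. The tuple `Λ b` consists of the logarithms of
  the `m` shifted numbers `n_i = p_(i+1) ^ b_1 p_(i+2) ^ b_2 ... p_(i+N) ^ b_N`. As
  `∑ a_i b_k Λ_ik = ∑_s (∑_(i+k=s) a_i b_k) log p_s` and the product of two nonzero polynomials is not
  zero, the matrix is `1`-generic.

If `Λ b` runs through all `m`-tuples of combinations of `M` independent logarithms, then `N = m M`,
`ρ = M`, and `d = (m - 1) M + m (m - 1) + binom(D + l + m, l + m) - 1`. This case was known here. It says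
nothing about thin families, for which `N` may be smaller than `(m - 1) M`.

The proof. If the theorem fails, then there are a parameter vector `b` over an ultrapower of `ℚ̄` with a
relation `f` of minimal degree, and `d + 1` linear forms in `b` which are algebraically independent over
`ℚ̄`. The derivations with respect to these linear forms extend to derivations of the ultrapower of `ℂ`
which vanish on `ℂ` (`FE.Ops`, from the starting files). Those combinations of them which vanish on the
coefficients of `f` form a space of dimension `> (N - ρ) + m (m - 1)` and map `b` to vectors `b'` with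
`∑_i (∂f/∂Y_i) (Λ b')_i = 0`. The gradient is not zero, as `f` has minimal degree and `t` satisfies no
relation. Let `X` be the span of its coordinates over the field of coefficients, of dimension `e`. A
coordinate of the gradient with respect to a basis of `X` is a nonzero vector `a` with coefficients in
this field, and by the assumption the vectors `b'` with `a Λ b' = 0` form a space of dimension at most
`N - ρ`. Modulo this space the `e`-tuples of linear forms in logarithms which one obtains from the
`b'` are linearly independent, so the hyperplane case of the linear subgroup theorem of Waldschmidt and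
Roy (`W254.HP`) allows for at most `e (e - 1)` of them (`OG.Mas`, `OG.Sys`), a contradiction.
-/

set_option autoImplicit false

open Module

namespace Pool.Agent.Results.MP_60829e_nt.ThinFamiliesOfLogarithms

/-- The complex numbers `x i` satisfy no nonzero polynomial relation of total degree at most `D`
with algebraic coefficients. -/
def IndepUpTo (D : ℕ) {σ : Type} (x : σ → ℂ) : Prop :=
  ∀ P : MvPolynomial σ (algebraicClosure ℚ ℂ), P.totalDegree ≤ D →
    MvPolynomial.aeval x P = 0 → P = 0

/-- The space of all linear combinations, with algebraic coefficients, of `1` and of logarithms of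
algebraic numbers. -/
noncomputable def LogForms : Submodule (algebraicClosure ℚ ℂ) ℂ :=
  Submodule.span (algebraicClosure ℚ ℂ) ({1} ∪ {z : ℂ | IsAlgebraic ℚ (Complex.exp z)})

/-- For every nontrivial combination `a Λ` of the rows of `Λ` with algebraic coefficients, the `N`
entries of `a Λ` span a space of dimension at least `ρ` over the algebraic numbers. -/
def RowRankGE (ρ : ℕ) {m N : ℕ} (Λ : Fin m → Fin N → ℂ) : Prop :=
  ∀ a : Fin m → algebraicClosure ℚ ℂ, a ≠ 0 →
    ρ ≤ finrank (algebraicClosure ℚ ℂ)
      (Submodule.span (algebraicClosure ℚ ℂ) (Set.range fun k => ∑ i, (a i : ℂ) * Λ i k))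

/-- Any `d + 1` linear forms satisfy a nontrivial polynomial relation on `S`, that is, `S` lies in an
algebraic subset of dimension at most `d`. -/
def DimLE (d : ℕ) {N : ℕ} (S : Set (Fin N → algebraicClosure ℚ ℂ)) : Prop :=
  ∀ φ : Fin (d + 1) → ((Fin N → algebraicClosure ℚ ℂ) →ₗ[algebraicClosure ℚ ℂ]
      algebraicClosure ℚ ℂ),
    ∃ P : MvPolynomial (Fin (d + 1)) (algebraicClosure ℚ ℂ), P ≠ 0 ∧
      ∀ b ∈ S, MvPolynomial.eval (fun k => φ k b) P = 0

/-- **Main result.** -/
theorem result {m N l D ρ d : ℕ} (hρN : ρ ≤ N)
    (hd : d + 1 = (N - ρ) + m * (m - 1) + (D + (l + m)).choose (l + m))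
    (Λ : Fin m → Fin N → ℂ) (hΛ : ∀ i k, Λ i k ∈ LogForms) (hρ : RowRankGE ρ Λ)
    (ζ : Fin m → ℂ) (t : Fin l → ℂ) (ht : IndepUpTo D t) :
    DimLE d {b : Fin N → algebraicClosure ℚ ℂ |
      ¬ IndepUpTo D (Sum.elim t fun i => ζ i + ∑ k, (b k : ℂ) * Λ i k)} := by
  intro φ
  have hdef : Pool.Agent.K3h28.OG.DefLE (N - ρ) Λ := by
    intro a ha
    have h2 := LinearMap.finrank_range_add_finrank_ker (Pool.Agent.K3h28.OG.pr Λ a)
    rw [finrank_fintype_fun_eq_card, Fintype.card_fin] at h2
    have h4 : ρ ≤ finrank Pool.Agent.H301R2.SSE.QB
        (LinearMap.range (Pool.Agent.K3h28.OG.pr Λ a)) := by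
      rw [Pool.Agent.K3h28.OG.pr, Fintype.range_linearCombination]
      exact hρ a ha
    omega
  have hx : ¬ Pool.Agent.TH519.HS.RlK (algebraicClosure ℚ ℂ) D t := by
    rintro ⟨f, h1, h2, h3⟩
    exact h1 (ht f h2 h3)
  obtain ⟨P, h1, h2⟩ := Pool.Agent.K3h28.OG.one_generic (q := d + 1) (s := N - ρ) (by omega) Λ hΛ hdef ζ t
    hx φ
  refine ⟨P, h1, fun b hb => h2 b ?_⟩
  have hb' : ¬ ∀ P : MvPolynomial (Fin l ⊕ Fin m) (algebraicClosure ℚ ℂ), P.totalDegree ≤ D →
    MvPolynomial.aeval (Sum.elim t fun i => ζ i + ∑ k, (b k : ℂ) * Λ i k) P = 0 → P = 0 := hb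
  push Not at hb'
  obtain ⟨f, h3, h4, h5⟩ := hb'
  exact ⟨f, h5, h3, h4⟩

end Pool.Agent.Results.MP_60829e_nt.ThinFamiliesOfLogarithms
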