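import Mathlib
import Pool.Agent.K3h28.AF.Dens

/-!
# Logarithms of values of multiplicative functions

Let `G_1, ..., G_m` be polynomials with integer coefficients which are multiplicatively independent
modulo constants, and let `f_1, ..., f_m` be multiplicative functions with `f_c (p) = G_c (p)` for all
sufficiently large prime numbers `p` (the values at prime powers and at small primes are arbitrary real
numbers). We show that for almost all `k`-tuples of positive integers `(n_1, ..., n_k)` the `k m` numbers
`log |f_c (n_j)|` satisfy no nonzero polynomial relation of total degree `≤ D` with algebraic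
coefficients, and that the same holds over arbitrary fixed complex numbers `t_1, ..., t_l` which satisfy
no such relation themselves (tuples for which one of the values `f_c (n_j)` is `0` are not counted as
exceptional). The number of exceptional tuples with `n_j ≤ x` is at most `ε x ^ k` for `x ≥ x₀`, where
`x₀` does not depend on `t`.

For example, for almost all integers `n` the three numbers `log n`, `log φ(n)`, `log σ(n)` (and, if one
wants, `π` or any other transcendental number) satisfy no polynomial relation of degree `≤ D` over the
algebraic numbers, where `φ` is Euler's function and `σ` is the sum of the divisors: here the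
polynomials are `X`, `X - 1` and `X + 1`. One may add the sums `σ_2, σ_4, σ_8, ...` of powers of divisors
(`X ^ 2 + 1`, `X ^ 4 + 1`, `X ^ 8 + 1`, ...), Jordan's totient functions `J_3, J_5, ...` and so on. The
condition on the polynomials cannot be dropped: for squarefree `n` one has `φ(n) σ(n) = J_2(n)`.

Only the case of the single function `f (n) = n` was known here (`AlmostAllTuples`). The values of
different arithmetic functions at the same integer are not independent of each other in any obvious way,
in particular the prime factors of `p - 1` and `p + 1` are not under control.

The proof.
* By `K3h28.NF` (a theorem on cubes for vectors, Baker's theorem and the hyperplane case of the theorem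
  of Waldschmidt and Roy) it is enough to find in every dense set of integers a multiplicative cube
  `a s_1 ... s_r`, `s_i ∈ {p_i, q_i}`, with primes `p_i, q_i` not dividing `a` such that the `r m` rational
  numbers `G_c (q_i) / G_c (p_i)` are multiplicatively independent.
* The `G_c` are products of powers of pairwise coprime polynomials `H_b` (`AF.Fac`). For these the
  independence holds if there are primes `ρ_ib` which divide `H_b (q_i)` but not the other values of the
  polynomials at `q_i`, `p_i` and at the previous primes (`AF.Ind`).
* `AF.Count`, `AF.Bad`, `AF.Asy`: for almost all pairs `(p, q)` of primes in a dyadic block such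
  prime divisors `> w` exist. Otherwise all prime divisors `> w` of some `H_b (q)` divide one of the values
  at `p`. Either their product is at most a power of the logarithm; there are few such `q`, because there
  are few integers with a given small radical (up to small primes). Or a suitable part of the product
  is large, and by the Chinese remainder theorem there are few `p`.
* `AF.Step`, `AF.Cube`: the variance of the number of prime factors in blocks which contain many
  primes, and the Cauchy-Schwarz inequality within one block, yield pairs of primes in one block which are
  not exceptional, and by induction cubes.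
-/

set_option autoImplicit false

open Polynomial

namespace Pool.Agent.Results.MP_60829e_nt.ValuesOfMultiplicativeFunctions

/-- The complex numbers `x i` satisfy no nonzero polynomial relation of total degree at most `D`
with algebraic coefficients. -/
def IndepUpTo (D : ℕ) {σ : Type} (x : σ → ℂ) : Prop :=
  ∀ P : MvPolynomial σ (algebraicClosure ℚ ℂ), P.totalDegree ≤ D →
    MvPolynomial.aeval x P = 0 → P = 0

/-- The polynomials `G_1, ..., G_m` are multiplicatively independent modulo nonzero constants. -/
def MultIndep {m : ℕ} (G : Fin m → ℤ[X]) : Prop :=
  ∀ (u v : Fin m → ℕ) (A B : ℤ), A ≠ 0 → B ≠ 0 →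
    C A * ∏ c, G c ^ u c = C B * ∏ c, G c ^ v c → u = v

open Classical in
/-- **Main result.** (`Real.log y` is the logarithm of `|y|`.) -/
theorem result (m k l D : ℕ) (G : Fin m → ℤ[X]) (hG : MultIndep G)
    (f : Fin m → ArithmeticFunction ℝ) (hf : ∀ c, (f c).IsMultiplicative) (p₀ : ℕ)
    (hfp : ∀ c, ∀ p : ℕ, p.Prime → p₀ ≤ p → f c p = ((G c).eval (p : ℤ) : ℤ))
    (ε : ℝ) (hε : 0 < ε) :
    ∃ x₀ : ℕ, ∀ x ≥ x₀, ∀ t : Fin l → ℂ, IndepUpTo D t →
      (((Fintype.piFinset fun _ : Fin k => Finset.Icc 1 x).filter fun n =>
        (∀ j c, f c (n j) ≠ 0) ∧
        ¬ IndepUpTo D (Sum.elim t fun z : Fin k × Fin m =>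
          (Real.log (f z.2 (n z.1)) : ℂ))).card : ℝ) ≤ ε * (x : ℝ) ^ k := by
  obtain ⟨x₀, hx₀⟩ := Pool.Agent.K3h28.AF.density_tuples G hG f hf p₀ hfp D k (Fin l) ε hε
  refine ⟨x₀, fun x hx t ht => ?_⟩
  have h1 : Finset.Icc 1 x = Finset.Ioc 0 x := by
    ext n
    rw [Finset.mem_Icc, Finset.mem_Ioc]
    omega
  rw [h1]
  convert hx₀ x hx t ht
  exact Iff.rfl

end Pool.Agent.Results.MP_60829e_nt.ValuesOfMultiplicativeFunctions
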